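import Pool.Agent.R473.EC.Main
import Pool.Agent.R473.EC.Pi

/-!
# Cutting the digits into blocks of small algebraic complexity
-/

set_option autoImplicit false

namespace Pool.Agent.R473.FP

open Finset Polynomial Module Pool.Agent.W472.AC Pool.Agent.R473.EC Pool.Agent.TH629.ExpDig

/-- the polynomial `d_(u+1) X + ⋯ + d_(u+n) X^n` of a block of digits of `x` in base `b` -/
noncomputable def blockPoly (b : ℕ) (x : ℝ) (u n : ℕ) : ℚ[X] :=
  ∑ l ∈ Icc 1 n, C (digit b x (u + l) : ℚ) * X ^ l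

/-- the blocks of digits from the `(u+1)`-st to the `v`-th place satisfy a relation between the
monomials with the exponents `E j` with coefficients of degree `≤ k` -/
def BlockRel {n m : ℕ} (b : ℕ) (x : Fin n → ℝ) (E : Fin (m + 1) → Fin n → ℕ) (u v k : ℕ) : Prop :=
  ∃ h : Fin (m + 1) → ℚ[X], h ≠ 0 ∧ (∀ j, (h j).natDegree ≤ k) ∧
    X ^ (v - u + 1) ∣ ∑ j, h j * ∏ i, blockPoly b (x i) u (v - u) ^ E j i

lemma sQ_block (b : ℕ) (x : ℝ) (u n : ℕ) :
    sQ (fun l => if u < l then digit b x l else 0) (u + n) = X ^ u * blockPoly b x u n := by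
  induction n with
  | zero =>
    unfold sQ blockPoly
    rw [add_zero, Finset.sum_eq_zero]
    · simp
    · intro l hl
      rw [mem_Icc] at hl
      change C (((if u < l then digit b x l else 0 : ℤ)) : ℚ) * X ^ l = 0
      rw [if_neg (by omega)]
      simp
  | succ n ih =>
    unfold sQ blockPoly at ih ⊢
    rw [← add_assoc, Finset.sum_Icc_succ_top (by omega), ih, Finset.sum_Icc_succ_top (by omega)]
    have e : (fun l => if u < l then digit b x l else 0) (u + n + 1) = digit b x (u + n + 1) := by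
      change (if u < u + n + 1 then digit b x (u + n + 1) else 0) = _
      rw [if_pos (by omega)]
    rw [e, mul_add, add_assoc u n 1, pow_add X u (n + 1)]
    ring

theorem block {n m : ℕ} (x : Fin n → ℝ) (E : Fin (m + 1) → Fin n → ℕ)
    (hE : Function.Injective E) (hdown : ∀ j, ∀ a : Fin n → ℕ, a ≤ E j → ∃ j', E j' = a)
    (w c : ℝ) (hw : 0 ≤ w) (hc : 0 < c) (hx : Meas (fun j => ∏ i, Int.fract (x i) ^ E j i) w c) :
    ∃ A : ℝ, 1 ≤ A ∧ ∀ b : ℕ, 2 ≤ b → ∀ u v k : ℕ, u ≤ v → BlockRel b x E u v k →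
      (v : ℝ) ≤ A * (k + 1 + u) := by
  classical
  obtain ⟨A, hA, hlast⟩ := last_change x E hE hdown w c hw hc hx
  obtain ⟨p, hp⟩ : ∃ p : ℕ, p = 1 + ∑ j, ∑ i, E j i := ⟨_, rfl⟩
  have hEp : ∀ j, ∑ i, E j i ≤ p := fun j => by
    rw [hp]
    have := Finset.single_le_sum (f := fun j => ∑ i, E j i) (fun _ _ => Nat.zero_le _)
      (Finset.mem_univ j)
    have h2 : ∑ i, E j i ≤ ∑ j, ∑ i, E j i := this
    omega
  have hp1 : 1 ≤ p := by omega
  refine ⟨A * (p + 1), by nlinarith [(Nat.cast_nonneg p : (0 : ℝ) ≤ p)], ?_⟩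
  rintro b hb u v k huv ⟨h, hh0, hhk, hX⟩
  obtain ⟨q, rfl⟩ : ∃ q, v = u + q := ⟨v - u, by omega⟩
  rw [Nat.add_sub_cancel_left] at hX
  have hdig : ∀ i l, 0 ≤ digit b (x i) l ∧ digit b (x i) l < b := fun i l =>
    ⟨digit_nonneg _ _ (by omega) _, by
      unfold digit
      exact Int.emod_lt_of_pos _ (by exact_mod_cast (by omega : 0 < b))⟩
  have hrel : SRel (fun i l => if u < l then digit b (x i) l else 0) E (u + q) (k + u * p) := by
    refine ⟨fun j => h j * X ^ (u * (p - ∑ i, E j i)), ?_, fun j => ?_, ?_⟩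
    · intro h0
      apply hh0
      ext1 j
      have h1 := congrFun h0 j
      exact (mul_eq_zero.1 h1).resolve_right (pow_ne_zero _ X_ne_zero)
    · refine natDegree_mul_le.trans ?_
      rw [natDegree_X_pow]
      exact add_le_add (hhk j) (Nat.mul_le_mul_left _ (Nat.sub_le _ _))
    · have e : ∑ j, (h j * X ^ (u * (p - ∑ i, E j i))) *
          ∏ i, sQ (fun l => if u < l then digit b (x i) l else 0) (u + q) ^ E j i =
          X ^ (u * p) * ∑ j, h j * ∏ i, blockPoly b (x i) u q ^ E j i := by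
        rw [Finset.mul_sum]
        refine Finset.sum_congr rfl fun j _ => ?_
        simp only [sQ_block, mul_pow]
        rw [Finset.prod_mul_distrib, Finset.prod_pow_eq_pow_sum, ← pow_mul]
        have e1 : u * p = u * (p - ∑ i, E j i) + u * ∑ i, E j i := by
          rw [← Nat.mul_add, Nat.sub_add_cancel (hEp j)]
        rw [e1, pow_add]
        ring
      rw [e]
      have h2 : u + q + 1 ≤ u * p + (q + 1) := by nlinarith
      exact dvd_trans (pow_dvd_pow _ h2) (by rw [pow_add]; exact mul_dvd_mul_left _ hX)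
  have h1 := hlast b hb (u + q) (k + u * p) u (by omega)
    (fun i l => if u < l then digit b (x i) l else 0) (fun i l => by
      split_ifs
      · exact hdig i l
      · exact ⟨le_rfl, by exact_mod_cast (by omega : 0 < b)⟩)
    (fun i l hl _ => by rw [if_pos hl]) hrel
  refine h1.trans ?_
  rw [mul_assoc]
  refine mul_le_mul_of_nonneg_left ?_ (by linarith)
  push_cast
  have hk0 : (0 : ℝ) ≤ k := Nat.cast_nonneg k
  have hp0 : (0 : ℝ) ≤ p := Nat.cast_nonneg p
  have : 0 ≤ (p : ℝ) * (k + 1) := by positivity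
  nlinarith

/-- **Blocks.** -/
theorem blocks_of_meas {n m : ℕ} (x : Fin n → ℝ) (E : Fin (m + 1) → Fin n → ℕ)
    (hE : Function.Injective E) (hdown : ∀ j, ∀ a : Fin n → ℕ, a ≤ E j → ∃ j', E j' = a)
    (w c : ℝ) (hw : 0 ≤ w) (hc : 0 < c) (hx : Meas (fun j => ∏ i, Int.fract (x i) ^ E j i) w c) :
    ∃ A : ℝ, 1 ≤ A ∧ ∀ b : ℕ, 2 ≤ b → ∀ (k r : ℕ) (u v : ℕ → ℕ), u 0 = 0 →
      (∀ i < r, u i ≤ v i ∧ u (i + 1) ≤ v i + 1 ∧ BlockRel b x E (u i) (v i) k) →
      (u r : ℝ) ≤ A ^ r * (k + 1) := by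
  obtain ⟨A, hA, hblock⟩ := block x E hE hdown w c hw hc hx
  refine ⟨3 * A, by linarith, ?_⟩
  intro b hb k r u v hu0
  have hk0 : (0 : ℝ) ≤ k := Nat.cast_nonneg k
  induction r with
  | zero =>
    intro _
    rw [hu0, Nat.cast_zero, pow_zero, one_mul]
    linarith
  | succ r ih =>
    intro h
    have h1 := ih fun i hi => h i (by omega)
    obtain ⟨h2, h3, h4⟩ := h r (by omega)
    have h5 := hblock b hb (u r) (v r) k h2 h4
    have h6 : (u (r + 1) : ℝ) ≤ v r + 1 := by exact_mod_cast h3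
    obtain ⟨T, hT⟩ : ∃ T : ℝ, T = (3 * A) ^ r := ⟨_, rfl⟩
    have hT1 : 1 ≤ T := by rw [hT]; exact one_le_pow₀ (by linarith)
    rw [← hT] at h1
    rw [pow_succ, ← hT]
    have h7 : (k + 1 : ℝ) ≤ T * (k + 1) := by nlinarith
    have h8 : A * (k + 1 + u r) ≤ A * (T * (k + 1) + T * (k + 1)) :=
      mul_le_mul_of_nonneg_left (by linarith) (by linarith)
    have h9 : T * (k + 1) ≤ A * (T * (k + 1)) := by
      have : 0 ≤ T * (k + 1) := by positivity
      nlinarith
    linarith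

/-- **Numbers algebraic over `ℚ(t)`.** -/
theorem blocks_alg (t : ℝ) (ht : MeasR t) {n m : ℕ} (x : Fin n → ℝ)
    (hx : ∀ i, IsAlgebraic (IntermediateField.adjoin ℚ ({t} : Set ℝ)) (x i))
    (E : Fin (m + 1) → Fin n → ℕ)
    (hdown : ∀ j, ∀ a : Fin n → ℕ, a ≤ E j → ∃ j', E j' = a)
    (hli : LinearIndependent ℚ fun j => ∏ i, x i ^ E j i) :
    ∃ A : ℝ, 1 ≤ A ∧ ∀ b : ℕ, 2 ≤ b → ∀ (k r : ℕ) (u v : ℕ → ℕ), u 0 = 0 →
      (∀ i < r, u i ≤ v i ∧ u (i + 1) ≤ v i + 1 ∧ BlockRel b x E (u i) (v i) k) →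
      (u r : ℝ) ≤ A ^ r * (k + 1) := by
  obtain ⟨w, c, hw, hc, h⟩ := meas_alg t ht (fun j => ∏ i, x i ^ E j i)
    (fun j => (IsIntegral.prod _ (fun i _ => (hx i).isIntegral.pow _)).isAlgebraic) hli
  have hE : Function.Injective E := by
    intro j j' h
    apply hli.injective
    simp only [h]
  obtain ⟨c', hc', h'⟩ := meas_fract_mon x E hE hdown w c hc h
  exact blocks_of_meas x E hE hdown w c' hw hc' h'

end Pool.Agent.R473.FP
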