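import Pool.Agent.R473.FP.AlgPieces
import Pool.Agent.R473.JC.Joint

/-!
# Cutting the digits of two numbers into blocks of small algebraic complexity
-/

set_option autoImplicit false

namespace Pool.Agent.R473.FP

open Finset Polynomial Module Pool.Agent.W472.AC Pool.Agent.R473.EC Pool.Agent.TH629.ExpDig
  Pool.Agent.R473.JC Pool.Agent.R356

/-- a relation of degree `≤ r` with coefficients of degree `≤ k` for the block of the digits of `x`
from the `(p+1)`-st to the `q`-th place -/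
def BRel (b : ℕ) (x : ℝ) (r p q k : ℕ) : Prop :=
  ∃ h : Fin (r + 1) → ℚ[X], h ≠ 0 ∧ (∀ j, (h j).natDegree ≤ k) ∧
    X ^ (q - p + 1) ∣ ∑ j, h j * blockPoly b x p (q - p) ^ (j : ℕ)

/-- the digits of `x` with zeros at the first `p` places -/
noncomputable def mask (b : ℕ) (x : ℝ) (p : ℕ) (l : ℕ) : ℤ := if p < l then digit b x l else 0

lemma BRel.arel {b : ℕ} {x : ℝ} {r p q k : ℕ} (h : BRel b x r p q k) (hpq : p ≤ q) :
    ARel (mask b x p) r q (k + p * (r + 1)) := by
  obtain ⟨h, hh0, hhk, hX⟩ := h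
  obtain ⟨n, rfl⟩ : ∃ n, q = p + n := ⟨q - p, by omega⟩
  rw [Nat.add_sub_cancel_left] at hX
  refine ⟨fun j => h j * X ^ (p * (r + 1 - (j : ℕ))), ?_, fun j => ?_, ?_⟩
  · intro h0
    apply hh0
    ext1 j
    have h1 := congrFun h0 j
    exact (mul_eq_zero.1 h1).resolve_right (pow_ne_zero _ X_ne_zero)
  · refine natDegree_mul_le.trans ?_
    rw [natDegree_X_pow]
    exact add_le_add (hhk j) (Nat.mul_le_mul_left _ (Nat.sub_le _ _))
  · have e : ∑ j : Fin (r + 1), (h j * X ^ (p * (r + 1 - (j : ℕ)))) *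
        sQ (mask b x p) (p + n) ^ (j : ℕ) =
        X ^ (p * (r + 1)) * ∑ j, h j * blockPoly b x p n ^ (j : ℕ) := by
      rw [Finset.mul_sum]
      refine Finset.sum_congr rfl fun j _ => ?_
      have e0 : sQ (mask b x p) (p + n) = X ^ p * blockPoly b x p n := sQ_block b x p n
      rw [e0, mul_pow, ← pow_mul]
      have e1 : p * (r + 1) = p * (r + 1 - (j : ℕ)) + p * (j : ℕ) := by
        rw [← Nat.mul_add, Nat.sub_add_cancel (by have := j.2; omega)]
      rw [e1, pow_add]
      ring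
    rw [e]
    have h2 : p + n + 1 ≤ p * (r + 1) + (n + 1) := by nlinarith
    exact dvd_trans (pow_dvd_pow _ h2) (by rw [pow_add]; exact mul_dvd_mul_left _ hX)

lemma mask_digits (b : ℕ) (hb : 2 ≤ b) (x : ℝ) (p l : ℕ) : 0 ≤ mask b x p l ∧ mask b x p l < b := by
  unfold mask
  split_ifs
  · refine ⟨digit_nonneg _ _ (by omega) _, ?_⟩
    unfold digit
    exact Int.emod_lt_of_pos _ (by exact_mod_cast (by omega : 0 < b))
  · exact ⟨le_rfl, by exact_mod_cast (by omega : 0 < b)⟩

theorem gap_pair (u v : ℝ) (huv : JointR u v) (r : ℕ) : ∃ A : ℝ, 1 ≤ A ∧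
    ∀ b b' : ℕ, 2 ≤ b → 2 ≤ b' → ∀ k k' p q p' q' : ℕ, p ≤ q → p' ≤ q' →
      BRel b u r p q k → BRel b' v r p' q' k' →
      min (q * Real.log b) (q' * Real.log b') ≤
        A * ((k + 1 + p) * Real.log b + (k' + 1 + p') * Real.log b') := by
  obtain ⟨A, hA, hmain⟩ := joint_last u v huv r
  have hr0 : (0 : ℝ) ≤ r := Nat.cast_nonneg r
  refine ⟨A * (r + 2) + 1, by nlinarith, ?_⟩
  intro b b' hb hb' k k' p q p' q' hpq hpq' hrel hrel'
  have hbR : (2 : ℝ) ≤ b := by exact_mod_cast hb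
  have hbR' : (2 : ℝ) ≤ b' := by exact_mod_cast hb'
  obtain ⟨lb, elb⟩ : ∃ x : ℝ, x = Real.log b := ⟨_, rfl⟩
  obtain ⟨lb', elb'⟩ : ∃ x : ℝ, x = Real.log b' := ⟨_, rfl⟩
  have hlb : 0 < lb := by rw [elb]; exact Real.log_pos (by linarith)
  have hlb' : 0 < lb' := by rw [elb']; exact Real.log_pos (by linarith)
  rw [← elb, ← elb']
  obtain ⟨M, hM⟩ : ∃ x : ℝ, x = min (q * lb) (q' * lb') := ⟨_, rfl⟩
  rw [← hM]
  have hM0 : 0 ≤ M := by rw [hM]; exact le_min (by positivity) (by positivity)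
  obtain ⟨L₁, hL₁⟩ : ∃ n : ℕ, n = ⌊M / lb⌋₊ := ⟨_, rfl⟩
  obtain ⟨L₂, hL₂⟩ : ∃ n : ℕ, n = ⌊M / lb'⌋₊ := ⟨_, rfl⟩
  have a1 : (L₁ : ℝ) * lb ≤ M := by
    rw [← le_div_iff₀ hlb, hL₁]; exact Nat.floor_le (by positivity)
  have a2 : M < L₁ * lb + lb := by
    have := Nat.lt_floor_add_one (M / lb)
    rw [← hL₁, div_lt_iff₀ hlb] at this
    linarith
  have a3 : (L₂ : ℝ) * lb' ≤ M := by
    rw [← le_div_iff₀ hlb', hL₂]; exact Nat.floor_le (by positivity)
  have a4 : M < L₂ * lb' + lb' := by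
    have := Nat.lt_floor_add_one (M / lb')
    rw [← hL₂, div_lt_iff₀ hlb'] at this
    linarith
  have b1 : L₁ ≤ q := by
    have h1 : (L₁ : ℝ) * lb ≤ q * lb := a1.trans (by rw [hM]; exact min_le_left _ _)
    exact_mod_cast le_of_mul_le_mul_right h1 hlb
  have b2 : L₂ ≤ q' := by
    have h1 : (L₂ : ℝ) * lb' ≤ q' * lb' := a3.trans (by rw [hM]; exact min_le_right _ _)
    exact_mod_cast le_of_mul_le_mul_right h1 hlb'
  have hk0 : (0 : ℝ) ≤ k := Nat.cast_nonneg k
  have hk0' : (0 : ℝ) ≤ k' := Nat.cast_nonneg k'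
  have hp0 : (0 : ℝ) ≤ p := Nat.cast_nonneg p
  have hp0' : (0 : ℝ) ≤ p' := Nat.cast_nonneg p'
  obtain ⟨R, hR⟩ : ∃ R : ℝ, R = (k + 1 + p) * lb + (k' + 1 + p') * lb' := ⟨_, rfl⟩
  rw [← hR]
  have hR1 : (1 + p) * lb ≤ R := by
    rw [hR]
    have h1 : 0 ≤ (k : ℝ) * lb := by positivity
    have h2 : 0 ≤ ((k' : ℝ) + 1 + p') * lb' := by positivity
    linarith
  have hR2 : (1 + p') * lb' ≤ R := by
    rw [hR]
    have h1 : 0 ≤ (k' : ℝ) * lb' := by positivity
    have h2 : 0 ≤ ((k : ℝ) + 1 + p) * lb := by positivity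
    linarith
  have hR0 : 0 ≤ R := le_trans (by positivity) hR1
  have hAR : 0 ≤ A * (r + 2) * R := by positivity
  by_cases hc1 : p ≤ L₁
  swap
  · have h1 : ((L₁ : ℝ) + 1) ≤ p := by exact_mod_cast (by omega : L₁ + 1 ≤ p)
    have h2 := mul_le_mul_of_nonneg_right h1 hlb.le
    linarith
  by_cases hc2 : p' ≤ L₂
  swap
  · have h1 : ((L₂ : ℝ) + 1) ≤ p' := by exact_mod_cast (by omega : L₂ + 1 ≤ p')
    have h2 := mul_le_mul_of_nonneg_right h1 hlb'.le
    linarith
  have hm := hmain b b' hb hb' L₁ L₂ (k + p * (r + 1)) (k' + p' * (r + 1)) p p' hc1 hc2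
    (mask b u p) (mask b' v p') (mask_digits b hb u p) (mask_digits b' hb' v p')
    (fun l hl _ => by unfold mask; rw [if_pos hl]) (fun l hl _ => by unfold mask; rw [if_pos hl])
    ((hrel.arel hpq).trunc L₁ b1) ((hrel'.arel hpq').trunc L₂ b2)
    (by rw [← elb, ← elb']; linarith) (by rw [← elb, ← elb']; linarith)
  rw [← elb, ← elb'] at hm
  push_cast at hm
  have h1 : (((k : ℝ) + p * (r + 1) + 1 + p) * lb + ((k' : ℝ) + p' * (r + 1) + 1 + p') * lb') ≤
      (r + 2) * R := by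
    have e1 : ((k : ℝ) + p * (r + 1) + 1 + p) ≤ (r + 2) * (k + 1 + p) := by
      have : 0 ≤ (r : ℝ) * (k + 1) := by positivity
      nlinarith
    have e2 : ((k' : ℝ) + p' * (r + 1) + 1 + p') ≤ (r + 2) * (k' + 1 + p') := by
      have : 0 ≤ (r : ℝ) * (k' + 1) := by positivity
      nlinarith
    have e3 := mul_le_mul_of_nonneg_right e1 hlb.le
    have e4 := mul_le_mul_of_nonneg_right e2 hlb'.le
    rw [hR]
    linarith
  have h2 := mul_le_mul_of_nonneg_left h1 (by linarith : 0 ≤ A)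
  have h3 : 0 ≤ (p : ℝ) * lb := by positivity
  linarith

/-- every maximal block of the first `N` digits of `x` between the places in `E` has a relation of
order `≤ k`: the digits with the numbers `e + 1`, `e ∈ E`, are omitted -/
def Cut (b : ℕ) (x : ℝ) (r k N : ℕ) (E : Finset ℕ) : Prop :=
  ∀ p q, p ≤ q → q ≤ N → (p = 0 ∨ ∃ e ∈ E, p = e + 1) → (q = N ∨ q ∈ E) →
    (∀ e ∈ E, e < p ∨ q ≤ e) → BRel b x r p q k

lemma Cut.sub {b : ℕ} {x : ℝ} {r k N : ℕ} {E : Finset ℕ} (h : Cut b x r k N E) (e : ℕ) (he : e ∈ E)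
    (heN : e ≤ N) : Cut b x r k e E := fun p q h1 h2 h3 h4 h5 =>
  h p q h1 (h2.trans heN) h3 (Or.inr (h4.elim (fun h => by rw [h]; exact he) id)) h5

/-- the last omitted place -/
lemma last_cut (E : Finset ℕ) (N : ℕ) : (E.filter (· < N) = ∅) ∨ ∃ e ∈ E, e < N ∧
    (∀ e' ∈ E, e' < e + 1 ∨ N ≤ e') ∧ (E.filter (· < e)).card + 1 ≤ (E.filter (· < N)).card := by
  rcases Finset.eq_empty_or_nonempty (E.filter (· < N)) with h | h
  · exact Or.inl h
  · right
    obtain ⟨e, he⟩ : ∃ e, e = (E.filter (· < N)).max' h := ⟨_, rfl⟩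
    have hmem : e ∈ E.filter (· < N) := by rw [he]; exact Finset.max'_mem _ _
    have h1 := Finset.mem_filter.1 hmem
    refine ⟨e, h1.1, h1.2, fun e' he' => ?_, ?_⟩
    · by_contra hcon
      push Not at hcon
      have h2 : e' ∈ E.filter (· < N) := Finset.mem_filter.2 ⟨he', hcon.2⟩
      have h3 := Finset.le_max' _ _ h2
      rw [← he] at h3
      omega
    · have h2 : E.filter (· < e) ⊂ E.filter (· < N) := by
        rw [Finset.ssubset_iff_of_subset]
        · exact ⟨e, hmem, by simp⟩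
        · intro i hi
          rw [Finset.mem_filter] at hi ⊢
          exact ⟨hi.1, by omega⟩
      exact Finset.card_lt_card h2

/-- **Two numbers.** -/
theorem cut_pair (u v : ℝ) (huv : JointR u v) (r : ℕ) : ∃ A : ℝ, 1 ≤ A ∧
    ∀ b b' : ℕ, 2 ≤ b → 2 ≤ b' → ∀ k k' N N' : ℕ, ∀ E E' : Finset ℕ,
      Cut b u r k N E → Cut b' v r k' N' E' →
      min (N * Real.log b) (N' * Real.log b') ≤
        A ^ (E.card + E'.card + 1) * ((k + 1) * Real.log b + (k' + 1) * Real.log b') := by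
  obtain ⟨A₀, hA₀, hgap⟩ := gap_pair u v huv r
  refine ⟨5 * A₀, by linarith, ?_⟩
  intro b b' hb hb' k k' N N' E E' hC hC'
  obtain ⟨A, hA⟩ : ∃ A : ℝ, A = 5 * A₀ := ⟨_, rfl⟩
  rw [← hA]
  have hA1 : 1 ≤ A := by linarith
  have hbR : (2 : ℝ) ≤ b := by exact_mod_cast hb
  have hbR' : (2 : ℝ) ≤ b' := by exact_mod_cast hb'
  obtain ⟨lb, elb⟩ : ∃ x : ℝ, x = Real.log b := ⟨_, rfl⟩
  obtain ⟨lb', elb'⟩ : ∃ x : ℝ, x = Real.log b' := ⟨_, rfl⟩
  have hlb : 0 < lb := by rw [elb]; exact Real.log_pos (by linarith)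
  have hlb' : 0 < lb' := by rw [elb']; exact Real.log_pos (by linarith)
  have hgap' := fun p q p' q' => hgap b b' hb hb' k k' p q p' q'
  rw [← elb, ← elb'] at hgap' ⊢
  obtain ⟨R, hR⟩ : ∃ R : ℝ, R = (k + 1) * lb + (k' + 1) * lb' := ⟨_, rfl⟩
  rw [← hR]
  have hRb : lb + lb' ≤ R := by
    rw [hR]
    have h1 : 0 ≤ (k : ℝ) * lb := by positivity
    have h2 : 0 ≤ (k' : ℝ) * lb' := by positivity
    linarith
  have hR0 : 0 < R := by linarith
  have hgapR : ∀ p q p' q', p ≤ q → p' ≤ q' → BRel b u r p q k → BRel b' v r p' q' k' →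
      min (q * lb) (q' * lb') ≤ A₀ * (R + p * lb + p' * lb') := by
    intro p q p' q' h1 h2 h3 h4
    refine (hgap' p q p' q' h1 h2 h3 h4).trans (le_of_eq ?_)
    rw [hR]
    ring
  have key : ∀ n N N' : ℕ, (E.filter (· < N)).card + (E'.filter (· < N')).card ≤ n →
      Cut b u r k N E → Cut b' v r k' N' E' → min (N * lb) (N' * lb') ≤ A ^ (n + 1) * R := by
    intro n
    induction n with
    | zero =>
      intro N N' hn hC hC'
      have e1 : E.filter (· < N) = ∅ := Finset.card_eq_zero.1 (by omega)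
      have e2 : E'.filter (· < N') = ∅ := Finset.card_eq_zero.1 (by omega)
      have h1 := hC 0 N (Nat.zero_le _) le_rfl (Or.inl rfl) (Or.inl rfl) (fun e he => by
        right
        by_contra hcon
        have : e ∈ E.filter (· < N) := Finset.mem_filter.2 ⟨he, by omega⟩
        rw [e1] at this
        simp at this)
      have h2 := hC' 0 N' (Nat.zero_le _) le_rfl (Or.inl rfl) (Or.inl rfl) (fun e he => by
        right
        by_contra hcon
        have : e ∈ E'.filter (· < N') := Finset.mem_filter.2 ⟨he, by omega⟩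
        rw [e2] at this
        simp at this)
      have h3 := hgapR 0 N 0 N' (Nat.zero_le _) (Nat.zero_le _) h1 h2
      simp only [Nat.cast_zero, zero_mul, add_zero] at h3
      rw [zero_add, pow_one]
      refine h3.trans (mul_le_mul_of_nonneg_right (by linarith) hR0.le)
    | succ n ih =>
      intro N N' hn hC hC'
      obtain ⟨T, hT⟩ : ∃ T : ℝ, T = A ^ (n + 1) := ⟨_, rfl⟩
      have hT1 : 1 ≤ T := by rw [hT]; exact one_le_pow₀ hA1
      rw [pow_succ, ← hT]
      rw [← hT] at ih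
      have hTR : R ≤ T * R := le_mul_of_one_le_left hR0.le hT1
      have hTA : T * R ≤ T * A * R := by nlinarith [mul_pos (by linarith : 0 < T) hR0]
      -- the last places
      obtain ⟨p, hpN, hp0, hpE, hpc⟩ : ∃ p, p ≤ N ∧ (p = 0 ∨ ∃ e ∈ E, p = e + 1) ∧
          (∀ e ∈ E, e < p ∨ N ≤ e) ∧ (∀ e, p = e + 1 → (E.filter (· < e)).card + 1 ≤
            (E.filter (· < N)).card) := by
        rcases last_cut E N with h | ⟨e, he, heN, hemax, hec⟩
        · refine ⟨0, Nat.zero_le _, Or.inl rfl, fun e he => ?_, fun e he => by omega⟩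
          right
          by_contra hcon
          have : e ∈ E.filter (· < N) := Finset.mem_filter.2 ⟨he, by omega⟩
          rw [h] at this
          simp at this
        · refine ⟨e + 1, heN, Or.inr ⟨e, he, rfl⟩, hemax, fun e' he' => ?_⟩
          have : e' = e := by omega
          rw [this]
          exact hec
      obtain ⟨p', hpN', hp0', hpE', hpc'⟩ : ∃ p', p' ≤ N' ∧ (p' = 0 ∨ ∃ e ∈ E', p' = e + 1) ∧
          (∀ e ∈ E', e < p' ∨ N' ≤ e) ∧ (∀ e, p' = e + 1 → (E'.filter (· < e)).card + 1 ≤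
            (E'.filter (· < N')).card) := by
        rcases last_cut E' N' with h | ⟨e, he, heN, hemax, hec⟩
        · refine ⟨0, Nat.zero_le _, Or.inl rfl, fun e he => ?_, fun e he => by omega⟩
          right
          by_contra hcon
          have : e ∈ E'.filter (· < N') := Finset.mem_filter.2 ⟨he, by omega⟩
          rw [h] at this
          simp at this
        · refine ⟨e + 1, heN, Or.inr ⟨e, he, rfl⟩, hemax, fun e' he' => ?_⟩
          have : e' = e := by omega
          rw [this]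
          exact hec
      have hg := hgapR p N p' N' hpN hpN' (hC p N hpN le_rfl hp0 (Or.inl rfl) hpE)
        (hC' p' N' hpN' le_rfl hp0' (Or.inl rfl) hpE')
      -- it suffices to bound the later one of the two places
      have hsuff : p * lb ≤ 2 * (T * R) → p' * lb' ≤ 2 * (T * R) →
          min (N * lb) (N' * lb') ≤ T * A * R := by
        intro h1 h2
        refine hg.trans ?_
        calc A₀ * (R + p * lb + p' * lb') ≤ A₀ * (5 * (T * R)) :=
              mul_le_mul_of_nonneg_left (by linarith) (by linarith)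
          _ = T * A * R := by rw [hA]; ring
      rcases le_total (p' * lb') (p * lb) with hcmp | hcmp
      · rcases hp0 with h0 | ⟨e, he, hpe⟩
        · have h1 : (p : ℝ) * lb ≤ 2 * (T * R) := by
            rw [h0, Nat.cast_zero, zero_mul]; positivity
          exact hsuff h1 (hcmp.trans h1)
        · have h1 := ih e N' (by have := hpc e hpe; omega) (hC.sub e he (by omega)) hC'
          rcases min_le_iff.1 h1 with h2 | h2
          · have h3 : (p : ℝ) * lb ≤ 2 * (T * R) := by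
              rw [hpe]
              push_cast
              linarith
            exact hsuff h3 (hcmp.trans h3)
          · exact (min_le_right _ _).trans (h2.trans hTA)
      · rcases hp0' with h0 | ⟨e, he, hpe⟩
        · have h1 : (p' : ℝ) * lb' ≤ 2 * (T * R) := by
            rw [h0, Nat.cast_zero, zero_mul]; positivity
          exact hsuff (hcmp.trans h1) h1
        · have h1 := ih N e (by have := hpc' e hpe; omega) hC (hC'.sub e he (by omega))
          rcases min_le_iff.1 h1 with h2 | h2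
          · exact (min_le_left _ _).trans (h2.trans hTA)
          · have h3 : (p' : ℝ) * lb' ≤ 2 * (T * R) := by
              rw [hpe]
              push_cast
              linarith
            exact hsuff (hcmp.trans h3) h3
  exact key (E.card + E'.card) N N' (add_le_add (Finset.card_filter_le _ _)
    (Finset.card_filter_le _ _)) hC hC'

/-- **Finite families.** -/
theorem cut_family {ι : Type} [Finite ι] (x : ι → ℝ) (hx : ∀ i j, i ≠ j → JointR (x i) (x j))
    (r : ℕ) : ∃ A : ℝ, 1 ≤ A ∧ ∀ i j, i ≠ j → ∀ b b' : ℕ, 2 ≤ b → 2 ≤ b' →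
      ∀ k k' N N' : ℕ, ∀ E E' : Finset ℕ, Cut b (x i) r k N E → Cut b' (x j) r k' N' E' →
      min (N * Real.log b) (N' * Real.log b') ≤
        A ^ (E.card + E'.card + 1) * ((k + 1) * Real.log b + (k' + 1) * Real.log b') := by
  classical
  have := Fintype.ofFinite ι
  have h1 : ∀ p : ι × ι, ∃ A : ℝ, 1 ≤ A ∧ (p.1 ≠ p.2 → ∀ b b' : ℕ, 2 ≤ b → 2 ≤ b' →
      ∀ k k' N N' : ℕ, ∀ E E' : Finset ℕ, Cut b (x p.1) r k N E → Cut b' (x p.2) r k' N' E' →
      min (N * Real.log b) (N' * Real.log b') ≤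
        A ^ (E.card + E'.card + 1) * ((k + 1) * Real.log b + (k' + 1) * Real.log b')) := by
    intro p
    by_cases hp : p.1 = p.2
    · exact ⟨1, le_rfl, fun h => absurd hp h⟩
    · obtain ⟨A, hA, h⟩ := cut_pair (x p.1) (x p.2) (hx _ _ hp) r
      exact ⟨A, hA, fun _ => h⟩
  choose A hA h using h1
  have hA0 : ∀ p, 0 ≤ A p := fun p => by linarith [hA p]
  refine ⟨1 + ∑ p, A p, ?_, ?_⟩
  · have := Finset.sum_nonneg fun p (_ : p ∈ (Finset.univ : Finset (ι × ι))) => hA0 p
    linarith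
  · intro i j hij b b' hb hb' k k' N N' E E' hC hC'
    refine (h (i, j) hij b b' hb hb' k k' N N' E E' hC hC').trans ?_
    have hb0 : 0 ≤ Real.log b := Real.log_nonneg (by exact_mod_cast (by omega : 1 ≤ b))
    have hb0' : 0 ≤ Real.log b' := Real.log_nonneg (by exact_mod_cast (by omega : 1 ≤ b'))
    refine mul_le_mul_of_nonneg_right (pow_le_pow_left₀ (hA0 _) ?_ _) (by positivity)
    have := Finset.single_le_sum (fun p (_ : p ∈ (Finset.univ : Finset (ι × ι))) => hA0 p)
      (Finset.mem_univ (i, j))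
    linarith

end Pool.Agent.R473.FP
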