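import Pool.Agent.R473.FP.JointPieces
import Pool.Agent.R473.FP.FS
import Pool.Agent.R473.JC.Mult

/-!
# Finite-state predictors for the digits of two numbers
-/

set_option autoImplicit false

namespace Pool.Agent.R473.FP

open Finset Polynomial Module Pool.Agent.W472.AC Pool.Agent.R473.EC Pool.Agent.TH629.ExpDig
  Pool.Agent.R356

lemma blockPoly_coeff (b : ℕ) (x : ℝ) (u n d : ℕ) :
    (blockPoly b x u n).coeff d = if 1 ≤ d ∧ d ≤ n then (digit b x (u + d) : ℚ) else 0 := by
  unfold blockPoly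
  rw [finsetSum_coeff]
  simp only [coeff_C_mul, coeff_X_pow, mul_ite, mul_one, mul_zero]
  rw [Finset.sum_ite_eq (Icc 1 n) d]
  simp only [Finset.mem_Icc]

/-- the stretches on which a finite-state predictor makes no error have a linear relation -/
theorem cut_of_predictor (b : ℕ) (x : ℝ) (Q : ℕ) (δ : Fin Q → ℤ → Fin Q) (q₀ : Fin Q)
    (out : Fin Q → ℤ) (N : ℕ) : Cut b x 1 Q N
      ((range N).filter fun n => out (run δ q₀ (digit b x) n) ≠ digit b x (n + 1)) := by
  intro p q hpq hqN _ _ hE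
  have hno : ∀ i, p ≤ i → i < q → out (run δ q₀ (digit b x) i) = digit b x (i + 1) := by
    intro i hui hiv
    by_contra hne
    rcases hE i (Finset.mem_filter.2 ⟨Finset.mem_range.2 (by omega), hne⟩) with h | h <;> omega
  obtain ⟨a, m, hm, ham, hper⟩ := periodic_stretch δ q₀ out (digit b x) p q hno
  obtain ⟨n, rfl⟩ : ∃ n, q = p + n := ⟨q - p, by omega⟩
  unfold BRel
  rw [Nat.add_sub_cancel_left]
  obtain ⟨B, hB⟩ : ∃ B : ℚ[X], B = blockPoly b x p n := ⟨_, rfl⟩
  obtain ⟨F, hF⟩ : ∃ F : ℚ[X], F = (1 - X ^ m) * B := ⟨_, rfl⟩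
  obtain ⟨g, hg⟩ : ∃ g : ℚ[X], g = ∑ i ∈ range (Q + 1), C (F.coeff i) * X ^ i := ⟨_, rfl⟩
  have hBc : ∀ d, B.coeff d = if 1 ≤ d ∧ d ≤ n then (digit b x (p + d) : ℚ) else 0 := fun d => by
    rw [hB]; exact blockPoly_coeff b x p n d
  have hgc : ∀ d, g.coeff d = if d < Q + 1 then F.coeff d else 0 := by
    intro d
    rw [hg, finsetSum_coeff]
    simp only [coeff_C_mul, coeff_X_pow, mul_ite, mul_one, mul_zero]
    rw [Finset.sum_ite_eq (range (Q + 1)) d]
    simp only [Finset.mem_range]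
  have hFc : ∀ d, Q < d → d ≤ n → F.coeff d = 0 := by
    intro d hd hdn
    rw [hF, sub_mul, one_mul, coeff_sub, coeff_X_pow_mul', if_pos (by omega), hBc, hBc,
      if_pos ⟨by omega, by omega⟩, if_pos ⟨by omega, by omega⟩]
    have h1 := hper (d - m - 1) (by omega) (by omega)
    rw [show p + (d - m - 1) + m + 1 = p + d by omega,
      show p + (d - m - 1) + 1 = p + (d - m) by omega] at h1
    rw [h1, sub_self]
  refine ⟨![-g, 1 - X ^ m], ?_, ?_, ?_⟩
  · intro h0
    have h1 := congrFun h0 1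
    simp only [Matrix.cons_val_one, Matrix.cons_val_fin_one, Pi.zero_apply] at h1
    have h2 : (X : ℚ[X]) ^ m = 1 := by linear_combination -h1
    have h3 := congrArg natDegree h2
    rw [natDegree_X_pow, natDegree_one] at h3
    omega
  · intro j
    fin_cases j
    · change (-g).natDegree ≤ Q
      rw [natDegree_neg, hg]
      refine natDegree_sum_le_of_forall_le _ _ fun i hi => ?_
      refine (natDegree_C_mul_X_pow_le _ _).trans ?_
      rw [mem_range] at hi
      omega
    · change (1 - X ^ m : ℚ[X]).natDegree ≤ Q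
      refine (natDegree_sub_le _ _).trans (max_le ?_ ?_)
      · rw [natDegree_one]; exact Nat.zero_le _
      · rw [natDegree_X_pow]; omega
  · rw [Fin.sum_univ_two]
    simp only [Matrix.cons_val_zero, Matrix.cons_val_one, Matrix.cons_val_fin_one, Fin.val_zero,
      Fin.val_one, pow_zero, pow_one, mul_one]
    rw [← hB, ← hF, X_pow_dvd_iff]
    intro d hd
    rw [coeff_add, coeff_neg, hgc]
    by_cases h : d < Q + 1
    · rw [if_pos h, neg_add_cancel]
    · rw [if_neg h, neg_zero, zero_add]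
      exact hFc d (by omega) (by omega)

/-- **Two predictors.** -/
theorem pred_pair (u v : ℝ) (huv : JointR u v) : ∃ A : ℝ, 1 ≤ A ∧
    ∀ b b' : ℕ, 2 ≤ b → 2 ≤ b' → ∀ (Q Q' : ℕ) (δ : Fin Q → ℤ → Fin Q) (δ' : Fin Q' → ℤ → Fin Q')
      (q₀ : Fin Q) (q₀' : Fin Q') (out : Fin Q → ℤ) (out' : Fin Q' → ℤ) (N N' : ℕ),
      min (N * Real.log b) (N' * Real.log b') ≤
        A ^ (errors δ q₀ out (digit b u) N + errors δ' q₀' out' (digit b' v) N' + 1) *
          ((Q + 1) * Real.log b + (Q' + 1) * Real.log b') := by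
  obtain ⟨A, hA, h⟩ := cut_pair u v huv 1
  exact ⟨A, hA, fun b b' hb hb' Q Q' δ δ' q₀ q₀' out out' N N' =>
    h b b' hb hb' Q Q' N N' _ _ (cut_of_predictor b u Q δ q₀ out N)
      (cut_of_predictor b' v Q' δ' q₀' out' N')⟩

end Pool.Agent.R473.FP
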