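import Pool.Agent.W47.JL.Single

/-!
# Cutting the digits of several numbers into pieces of small linear complexity
-/

set_option autoImplicit false

namespace Pool.Agent.R473.FP

open Finset Polynomial
open Pool.Agent.H831R3.LC (W dig dig_abs)
open Pool.Agent.W47.JL

/-- compare `Pool.Agent.W47.JL.gap` -/
theorem gap2 (J : ℕ) (x : Fin J → ℝ) (μ c0 A : ℝ) (hμ : 1 < μ) (hc0 : 0 < c0)
    (hA0 : 0 ≤ A) (hM : Meas J x μ c0 A) (b : ℕ) (hb : 2 ≤ b) (m k K : ℕ)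
    (t : ℤ[X]) (htd : t.natDegree ≤ m + k)
    (htH : ∀ i, |t.coeff i| ≤ (((m + 1 + k) * b) ^ K : ℕ)) (ht0 : t.eval (b : ℤ) ≠ 0)
    (u v : ℕ)
    (happ : u + (m + k) ≤ v → ∀ j : Fin J, ∃ p : ℤ,
      |((t.eval (b : ℤ) : ℤ) : ℝ) * (b : ℝ) ^ u * x j - p| * (b : ℝ) ^ (v - (m + k) - u) ≤
        ((m + k : ℕ) + 1) * (((m + 1 + k) * b) ^ K : ℕ)) :
    (v : ℝ) ≤ μ * (u + M1 b m k K) + (3 / 2 * A) * Real.log (1 + (u + M1 b m k K)) +
      (A + 3 / 2 * |Real.log c0|) := by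
  have hbR : (2 : ℝ) ≤ b := by exact_mod_cast hb
  have hb0 : (0 : ℝ) < b := by linarith
  have hm0 : (0 : ℝ) ≤ m := Nat.cast_nonneg m
  have hk0 : (0 : ℝ) ≤ k := Nat.cast_nonneg k
  have hu0 : (0 : ℝ) ≤ u := Nat.cast_nonneg u
  have hM1 := M1_ge b m k K hb
  obtain ⟨T, hT⟩ : ∃ T : ℝ, T = u + M1 b m k K := ⟨_, rfl⟩
  rw [← hT]
  have hT0 : 0 ≤ T := by rw [hT]; linarith
  have hlT0 : 0 ≤ Real.log (1 + T) := Real.log_nonneg (by linarith)
  have hlb : 0.69 ≤ Real.log b := by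
    have h1 := Real.log_two_gt_d9
    have h2 := Real.log_le_log (by norm_num : (0 : ℝ) < 2) hbR
    linarith
  have hlb0 : 0 < Real.log b := by linarith
  have hc00 := abs_nonneg (Real.log c0)
  rcases lt_or_ge v (u + (m + k)) with hv | hv
  · have h1 : (v : ℝ) ≤ T := by
      have : (v : ℝ) ≤ u + (m + k) := by exact_mod_cast hv.le
      rw [hT]; linarith
    have h2 : T ≤ μ * T := by nlinarith
    have h3 : 0 ≤ (3 / 2 * A) * Real.log (1 + T) := by positivity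
    linarith
  have happ := happ hv
  choose p hp using happ
  obtain ⟨q, hq⟩ : ∃ q : ℕ, q = (t.eval (b : ℤ)).natAbs * b ^ u := ⟨_, rfl⟩
  have hq1 : 1 ≤ q := by
    rw [hq]
    exact Nat.mul_pos (Int.natAbs_pos.2 ht0) (by positivity)
  have hqR : (q : ℝ) = |((t.eval (b : ℤ) : ℤ) : ℝ)| * (b : ℝ) ^ u := by
    rw [hq]; push_cast
    rw [Nat.cast_natAbs, Int.cast_abs]
  have hq1R : (1 : ℝ) ≤ q := by exact_mod_cast hq1
  obtain ⟨X, hX⟩ : ∃ X : ℝ, X = ((m : ℝ) + k + 1) * (((m : ℝ) + 1 + k) * b) ^ K := ⟨_, rfl⟩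
  have hX0 : 0 < X := by rw [hX]; positivity
  have hXe : (((m + k : ℕ) : ℝ) + 1) * (((m + 1 + k) * b) ^ K : ℕ) = X := by
    rw [hX]; push_cast; ring
  have hqle : (q : ℝ) ≤ X * (b : ℝ) ^ (m + k + u) := by
    have h1 := eval_le t (((m + 1 + k) * b) ^ K) (m + k) b (by omega) htH htd
    have h2 : |((t.eval (b : ℤ) : ℤ) : ℝ)| ≤ X * (b : ℝ) ^ (m + k) := by
      rw [← hXe]
      exact_mod_cast h1
    rw [hqR, pow_add]
    calc |((t.eval (b : ℤ) : ℤ) : ℝ)| * (b : ℝ) ^ u ≤ X * (b : ℝ) ^ (m + k) * (b : ℝ) ^ u :=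
          mul_le_mul_of_nonneg_right h2 (by positivity)
      _ = _ := by ring
  have hqx : ∀ j, ∃ p' : ℤ, |(q : ℝ) * x j - p'| =
      |((t.eval (b : ℤ) : ℤ) : ℝ) * (b : ℝ) ^ u * x j - p j| := by
    intro j
    rcases abs_cases ((t.eval (b : ℤ) : ℤ) : ℝ) with ⟨h1, _⟩ | ⟨h1, _⟩
    · exact ⟨p j, by rw [hqR, h1]⟩
    · refine ⟨-p j, ?_⟩
      rw [hqR, h1, ← abs_neg]
      congr 1
      push_cast
      ring
  choose p' hp' using hqx
  obtain ⟨j, hj⟩ := hM q hq1 p'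
  rw [hp' j] at hj
  have hpj := hp j
  rw [hXe] at hpj
  obtain ⟨w, hw⟩ : ∃ w : ℕ, v = m + k + u + w := ⟨v - (m + k) - u, by omega⟩
  rw [show v - (m + k) - u = w by omega] at hpj
  have hlogq : Real.log q ≤ T * Real.log b := by
    have h1 := Real.log_le_log (by linarith) hqle
    rw [Real.log_mul hX0.ne' (by positivity), Real.log_pow] at h1
    have h2 : T * Real.log b = Real.log X + ((m + k + u : ℕ) : ℝ) * Real.log b := by
      rw [hT, M1, ← hX]
      push_cast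
      field_simp
      ring
    rw [h2]
    exact h1
  have hlq0 : 0 ≤ Real.log q := Real.log_nonneg hq1R
  have h2 : c0 * (b : ℝ) ^ w ≤ (q : ℝ) ^ (μ - 1) * (1 + Real.log q) ^ A * X := by
    calc c0 * (b : ℝ) ^ w ≤ ((q : ℝ) ^ (μ - 1) * (1 + Real.log q) ^ A *
          |((t.eval (b : ℤ) : ℤ) : ℝ) * (b : ℝ) ^ u * x j - p j|) * (b : ℝ) ^ w :=
          mul_le_mul_of_nonneg_right hj (by positivity)
      _ = (q : ℝ) ^ (μ - 1) * (1 + Real.log q) ^ A *
          (|((t.eval (b : ℤ) : ℤ) : ℝ) * (b : ℝ) ^ u * x j - p j| * (b : ℝ) ^ w) := by ring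
      _ ≤ _ := mul_le_mul_of_nonneg_left hpj (by positivity)
  have h3 := Real.log_le_log (by positivity) h2
  rw [Real.log_mul hc0.ne' (by positivity), Real.log_pow,
    Real.log_mul (by positivity) hX0.ne', Real.log_mul (by positivity) (by positivity),
    Real.log_rpow (by linarith), Real.log_rpow (by linarith)] at h3
  have h4 : Real.log (1 + Real.log q) ≤ Real.log (1 + T) + Real.log b := by
    have h5 : 1 + Real.log q ≤ (1 + T) * (1 + Real.log b) := by nlinarith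
    have h6 := Real.log_le_log (by linarith) h5
    rw [Real.log_mul (by positivity) (by positivity)] at h6
    have h7 := Real.log_le_sub_one_of_pos (by linarith : 0 < 1 + Real.log b)
    linarith
  have h5 := mul_le_mul_of_nonneg_left h4 hA0
  have h6 := mul_le_mul_of_nonneg_left hlogq (by linarith : 0 ≤ μ - 1)
  have h7 : -|Real.log c0| ≤ Real.log c0 := neg_abs_le _
  have h8 : M1 b m k K * Real.log b = (m + k) * Real.log b + Real.log X := by
    rw [M1, ← hX]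
    field_simp
  have h9 : (v : ℝ) = m + k + u + w := by rw [hw]; push_cast; ring
  have h10 : Real.log (1 + T) ≤ 3 / 2 * Real.log (1 + T) * Real.log b := by nlinarith
  have h11 : |Real.log c0| ≤ 3 / 2 * |Real.log c0| * Real.log b := by nlinarith
  have h12 := mul_le_mul_of_nonneg_left h10 hA0
  have h13 : (v : ℝ) * Real.log b ≤ (μ * T + (3 / 2 * A) * Real.log (1 + T) +
      (A + 3 / 2 * |Real.log c0|)) * Real.log b := by
    have e1 : T * Real.log b = u * Real.log b + ((m + k) * Real.log b + Real.log X) := by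
      rw [hT, add_mul, h8]
    rw [h9]
    nlinarith
  exact le_of_mul_le_mul_right h13 hlb0

/-- the length of a piece -/
theorem piece (J : ℕ) (x : Fin J → ℝ) (μ c0 A : ℝ) (hμ : 1 < μ) (hc0 : 0 < c0)
    (hA0 : 0 ≤ A) (hM : Meas J x μ c0 A) (b : ℕ) (hb : 2 ≤ b) (m k K : ℕ) (hk : 1 ≤ k)
    (hK : m + 1 ≤ K * k) (u v : ℕ) (huv : u ≤ v) (c : ℕ → ℚ)
    (hc : ∀ j i, u ≤ i → i + m < v → (dig (x j) b (i + m + 1) : ℚ) =
      ∑ l ∈ range m, c l * (dig (x j) b (i + l + 1) : ℚ)) :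
    (v : ℝ) ≤ μ * (u + M1 b m k K) + (3 / 2 * A) * Real.log (1 + (u + M1 b m k K)) +
      (A + 3 / 2 * |Real.log c0| + 1) := by
  have hbR : (2 : ℝ) ≤ b := by exact_mod_cast hb
  have hm0 : (0 : ℝ) ≤ m := Nat.cast_nonneg m
  have hk0 : (0 : ℝ) ≤ k := Nat.cast_nonneg k
  have hu0 : (0 : ℝ) ≤ u := Nat.cast_nonneg u
  have hM1 := M1_ge b m k K hb
  have hM10 : 0 ≤ M1 b m k K := by linarith
  obtain ⟨n, rfl⟩ : ∃ n, v = u + n := ⟨v - u, by omega⟩
  have htriv : (n : ℝ) ≤ M1 b m k K + 1 →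
      ((u + n : ℕ) : ℝ) ≤ μ * (u + M1 b m k K) + (3 / 2 * A) * Real.log (1 + (u + M1 b m k K)) +
        (A + 3 / 2 * |Real.log c0| + 1) := by
    intro h
    have h1 : 0 ≤ Real.log (1 + (u + M1 b m k K)) := Real.log_nonneg (by linarith)
    have h2 : 0 ≤ (3 / 2 * A) * Real.log (1 + (u + M1 b m k K)) := by positivity
    have h3 : (u + M1 b m k K) ≤ μ * (u + M1 b m k K) := by nlinarith
    have h4 := abs_nonneg (Real.log c0)
    push_cast
    linarith
  by_cases hL : m + k ≤ n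
  swap
  · apply htriv
    have : (n : ℝ) ≤ m + k := by exact_mod_cast (by omega : n ≤ m + k)
    linarith
  by_cases hbig : (m + k + 1) * ((m + 1 + k) * b) ^ K * b < b ^ (n - (m + k))
  swap
  · apply htriv
    push Not at hbig
    have hlb0 : 0 < Real.log b := Real.log_pos (by linarith)
    have hb0 : (0 : ℝ) < b := by linarith
    have h1 : ((b : ℝ) ^ (n - (m + k))) ≤
        ((m : ℝ) + k + 1) * (((m : ℝ) + 1 + k) * b) ^ K * b := by exact_mod_cast hbig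
    have h2 := Real.log_le_log (by positivity) h1
    rw [Real.log_pow, Real.log_mul (by positivity) (by positivity)] at h2
    have h3 : ((n - (m + k) : ℕ) : ℝ) = n - (m + k) := by
      rw [Nat.cast_sub hL]; push_cast; ring
    rw [h3] at h2
    have h4 : (n : ℝ) - (m + k) ≤
        Real.log (((m : ℝ) + k + 1) * (((m : ℝ) + 1 + k) * b) ^ K) / Real.log b + 1 := by
      rw [← sub_le_iff_le_add, le_div_iff₀ hlb0]
      linarith
    unfold M1
    linarith
  -- the piece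
  obtain ⟨a, ha⟩ : ∃ a : Fin J → ℕ → ℤ, a = fun j i => if i < n then dig (x j) b (u + i + 1) else 0 :=
    ⟨_, rfl⟩
  have ha1 : ∀ j i, i < n → a j i = dig (x j) b (u + i + 1) := by
    intro j i hi
    rw [ha]; simp [hi]
  have ha2 : ∀ j i, |a j i| ≤ b := by
    intro j i
    by_cases hi : i < n
    · rw [ha1 j i hi]; exact dig_abs _ b (by omega) _
    · rw [ha]; simp [hi]
  obtain ⟨t, ht0, htd, htH, htr⟩ := Pool.Agent.W928.JL.small J a b (by omega) ha2 m k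
    (n - (m + k)) n K hk hK (by omega) c (fun j i hi => by
      rw [ha1 j _ hi, show u + (i + m) + 1 = (u + i) + m + 1 by ring,
        hc j (u + i) (by omega) (by omega)]
      refine Finset.sum_congr rfl fun l hl => ?_
      rw [mem_range] at hl
      rw [ha1 j _ (by omega), show u + (i + l) + 1 = (u + i) + l + 1 by ring])
  obtain ⟨t', htd', htH', htr', ht0'⟩ := Pool.Agent.W639.JL.desc J a b b (((m + 1 + k) * b) ^ K)
    (m + k) (n - (m + k)) hb ha2 hbig t htd ht0 htH htr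
  have h := gap2 J x μ c0 A hμ hc0 hA0 hM b hb m k K t' htd' htH' ht0' u (u + n) (fun _ j => by
    obtain ⟨p, hp⟩ := Pool.Agent.W45.JL.approx (x j * (b : ℝ) ^ u) b (((m + 1 + k) * b) ^ K)
      (n - (m + k)) (m + k) 0 n (a j) t' (by omega) htH' htd' (htr' j) (fun i _ hi => by
        rw [ha1 j i hi]
        unfold dig
        congr 2
        rw [show u + i + 1 = u + (i + 1) by ring, pow_add]
        ring) (by omega) (by omega)
    refine ⟨p, ?_⟩
    have e : u + n - (m + k) - u = n - (m + k) - 0 := by omega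
    rw [e]
    rw [pow_zero, mul_one] at hp
    rw [mul_assoc, mul_comm ((b : ℝ) ^ u) (x j)]
    exact hp)
  linarith

/-- **Pieces.** -/
theorem pieces (J : ℕ) (x : Fin J → ℝ) (μ c0 A : ℝ) (hμ : 1 < μ) (hc0 : 0 < c0)
    (hA0 : 0 ≤ A) (hM : Meas J x μ c0 A) :
    ∃ C : ℝ, 0 < C ∧ ∀ b : ℕ, 2 ≤ b → ∀ (N m r : ℕ) (E : Finset ℕ), E.card ≤ r →
      (∀ u v, u ≤ v → v ≤ N → (∀ i ∈ E, i < u ∨ v ≤ i) → ∃ c : ℕ → ℚ, ∀ j i, u ≤ i → i + m < v →
        (dig (x j) b (i + m + 1) : ℚ) = ∑ l ∈ range m, c l * (dig (x j) b (i + l + 1) : ℚ)) →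
      (N : ℝ) ≤ (∑ i ∈ range (r + 1), μ ^ (i + 1)) * (m + C * err m) := by
  obtain ⟨α, hα⟩ : ∃ α : ℝ, α = 3 / 2 * A := ⟨_, rfl⟩
  obtain ⟨β, hβ⟩ : ∃ β : ℝ, β = A + 3 / 2 * |Real.log c0| + 1 := ⟨_, rfl⟩
  obtain ⟨B, hB⟩ : ∃ B : ℝ, B = α / (μ - 1) := ⟨_, rfl⟩
  have hα0 : 0 ≤ α := by rw [hα]; positivity
  have hβ0 : 0 ≤ β := by rw [hβ]; positivity
  have hμ1 : 0 < μ - 1 := by linarith
  have hB0 : 0 ≤ B := by rw [hB]; positivity
  have hB1 : α ≤ B * (μ - 1) := by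
    rw [hB, div_mul_cancel₀ _ hμ1.ne']
  obtain ⟨C, hC0, hC⟩ := M2_le μ α β B hμ hα0 hβ0 hB0
  refine ⟨C, hC0, ?_⟩
  intro b hb N m r E hE hrec
  obtain ⟨k, K, hk, hK, hpar⟩ := params m
  have hbR : (2 : ℝ) ≤ b := by exact_mod_cast hb
  have hpar1 : M1 b m k K ≤ m + 15 * err m := hpar b hbR
  have hM1 := M1_ge b m k K hb
  have hm0 : (0 : ℝ) ≤ m := Nat.cast_nonneg m
  have hk0 : (0 : ℝ) ≤ k := Nat.cast_nonneg k
  have hM10 : 0 ≤ M1 b m k K := by linarith
  have hfin := hC m (M1 b m k K) hM10 hpar1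
  have hmain := rec_final μ α β (M1 b m k K) B hμ hα0 hβ0 hM10 hB1 hB0 E N r hE
    (fun u v huv hvN hE' => by
      obtain ⟨c, hc⟩ := hrec u v huv hvN hE'
      have h := piece J x μ c0 A hμ hc0 hA0 hM b hb m k K hk hK u v huv c hc
      rw [← hα, ← hβ] at h
      exact h)
  refine hmain.trans (mul_le_mul_of_nonneg_left hfin ?_)
  exact Finset.sum_nonneg fun i _ => by positivity

end Pool.Agent.R473.FP
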